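import Mathlib

set_option autoImplicit false

open Set Filter Topology Function

namespace Pool.Agent.H.MP_8652de_gt

variable {X K : Type} [TopologicalSpace X] [TopologicalSpace K]

def Hur (X : Type) [TopologicalSpace X] : Prop :=
  ∀ U : ℕ → Set (Set X), (∀ n, (∀ W ∈ U n, IsOpen W) ∧ ⋃₀ U n = univ) →
    ∃ V : ℕ → Set (Set X), (∀ n, (V n).Finite ∧ V n ⊆ U n) ∧ ∀ x, ∀ᶠ n in atTop, x ∈ ⋃₀ V n

def Dir (U : Set (Set X)) : Prop :=
  ((∀ W ∈ U, IsOpen W) ∧ ⋃₀ U = univ) ∧ ∀ V : Set (Set X), V.Finite → V ⊆ U → ⋃₀ V ∈ U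

lemma game (hH : Hur X) {S : Type} (s0 : S) (U : S → Set (Set X)) (hU : ∀ s, Dir (U s))
    (R : S → Set X → S → Prop) (h : ∀ s, ∀ W ∈ U s, ∃ s', R s W s') :
    ∃ (s : ℕ → S) (W : ℕ → Set X), (∀ n, R (s n) (W n) (s (n + 1))) ∧
      ∀ x, ∀ᶠ n in atTop, x ∈ W n := by
  have : ∀ s, ∃ e : ℕ → Set X, (∀ k, e k ∈ U s) ∧ Monotone e ∧ ⋃₀ range e = univ := fun s => by
    obtain ⟨V, h1, h2⟩ := hH (fun _ => U s) fun _ => (hU s).1
    refine ⟨fun k => ⋃₀ ⋃ n ∈ Iic k, V n, fun k => (hU s).2 _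
      ((finite_Iic k).biUnion fun n _ => (h1 n).1) (iUnion₂_subset fun n _ => (h1 n).2),
      fun k l hk => sUnion_mono (biUnion_subset_biUnion_left (Iic_subset_Iic.2 hk)),
      eq_univ_of_forall fun x => ?_⟩
    obtain ⟨n, W, h3, h4⟩ := (h2 x).exists
    exact ⟨_, ⟨n, rfl⟩, W, mem_biUnion (mem_Iic.2 le_rfl) h3, h4⟩
  choose e e1 e2 e3 using this
  choose nx hnx using fun s k => h s _ (e1 s k)
  let st : List ℕ → S := fun l => List.rec s0 (fun k _ s => nx s k) l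
  obtain ⟨V, h1, h2⟩ := hH (fun n => range (e (st (Denumerable.ofNat _ n)))) fun n =>
    ⟨by rintro _ ⟨k, rfl⟩; exact (hU _).1.1 _ (e1 _ k), e3 _⟩
  have : ∀ n, ∃ k, ⋃₀ V n ⊆ e (st (Denumerable.ofNat _ n)) k := fun n => by
    obtain ⟨I, hI, hI'⟩ := finite_subset_iUnion (h1 n).1
      (t := fun k => {e (st (Denumerable.ofNat _ n)) k}) (by simpa using (h1 n).2)
    obtain ⟨k, hk⟩ := hI.bddAbove
    refine ⟨k, sUnion_subset fun W hW => ?_⟩
    obtain ⟨i, hi, h4⟩ := mem_iUnion₂.1 (hI' hW)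
    exact (h4 : W = _) ▸ e2 _ (hk hi)
  choose k hk using this
  let l : ℕ → List ℕ := fun n => Nat.rec [] (fun _ l => k (Encodable.encode l) :: l) n
  have hl : ∀ n, (l n).length = n := fun n => by
    induction n with
    | zero => rfl
    | succ n ih => exact congrArg (· + 1) ih
  have ht : Tendsto (fun n => Encodable.encode (l n)) atTop atTop := by
    rw [← Nat.cofinite_eq_atTop]
    exact (Encodable.encode_injective.comp
      (LeftInverse.injective (g := List.length) hl)).tendsto_cofinite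
  refine ⟨fun n => st (l n), fun n => e (st (l n)) (k (Encodable.encode (l n))),
    fun n => hnx _ _, fun x => (ht.eventually (h2 x)).mono fun n hn => ?_⟩
  simpa using hk _ hn

variable [CompactSpace K] [T2Space K] {f : X → K}

lemma cov (hf : Continuous f) (hi : Injective f) {B : Set X} (hB : IsClosed B) {y : X}
    (hy : y ∉ B) : Dir {W | IsOpen W ∧ f y ∉ closure (f '' (W ∩ B))} := by
  refine ⟨⟨fun W h => h.1, eq_univ_of_forall fun x => ?_⟩, fun V hV hV' =>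
    ⟨isOpen_sUnion fun W hW => (hV' hW).1, ?_⟩⟩
  · by_cases hx : x ∈ B
    · obtain ⟨N, h1, h2, h3⟩ := (isCompact_singleton (x := f x)).exists_isOpen_closure_subset
        (isOpen_compl_singleton.mem_nhdsSet.2 (singleton_subset_iff.2
          fun h : f x = f y => hy (hi h ▸ hx)))
      exact ⟨f ⁻¹' N, ⟨h1.preimage hf, fun h => h3 (closure_mono
        (image_subset_iff.2 inter_subset_left) h) rfl⟩, h2 rfl⟩
    · exact ⟨Bᶜ, ⟨hB.isOpen_compl, by simp⟩, hx⟩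
  · rw [sUnion_eq_biUnion, iUnion₂_inter, image_iUnion₂, hV.closure_biUnion]
    simpa using fun W hW => (hV' hW).2

lemma resolv (hH : Hur X) (hf : Continuous f) (hb : Bijective f) {A : Set X} (hA : IsClopen A)
    {P O : Set K} (hO : IsOpen O) (hP : (O ∩ P).Nonempty) :
    ∃ O' ⊆ O, IsOpen O' ∧ (O' ∩ P).Nonempty ∧ (O' ∩ P ⊆ f '' A ∨ O' ∩ P ⊆ f '' Aᶜ) := by
  by_contra hc
  let B : Bool → Set X := fun b => bif b then A else Aᶜ
  have hB : ∀ b, IsClosed (B b) := by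
    rintro (_ | _)
    exacts [hA.compl.1, hA.1]
  have : ∀ s : Bool × {O' // O' ⊆ O ∧ IsOpen O' ∧ (O' ∩ P).Nonempty},
      ∃ y ∉ B s.1, f y ∈ s.2.1 ∩ P := by
    rintro ⟨b, O', h1, h2, h3⟩
    by_contra h
    push Not at h
    have : O' ∩ P ⊆ f '' B b := fun z hz => by
      obtain ⟨y, rfl⟩ := hb.2 z
      exact ⟨y, by_contra fun h' => h y h' hz, rfl⟩
    refine hc ⟨O', h1, h2, h3, ?_⟩
    cases b
    exacts [Or.inr this, Or.inl this]
  choose y hy hy' using this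
  obtain ⟨s, W, h1, h2⟩ := game hH (true, ⟨O, subset_rfl, hO, hP⟩) _
    (fun s => cov hf hb.1 (hB s.1) (hy s))
    (fun s W s' => s'.1 = !s.1 ∧ closure s'.2.1 ⊆ s.2.1 ∩ (f '' (W ∩ B s.1))ᶜ) (by
      rintro s W ⟨-, hW⟩
      obtain ⟨N, h1, h2, h3⟩ := (isCompact_singleton (x := f (y s))).exists_isOpen_closure_subset
        ((s.2.2.2.1.inter isClosed_closure.isOpen_compl).mem_nhdsSet.2
          (singleton_subset_iff.2 ⟨(hy' s).1, hW⟩))
      exact ⟨(!s.1, ⟨N, fun z hz => s.2.2.1 (h3 (subset_closure hz)).1, h1, _, h2 rfl, (hy' s).2⟩),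
        rfl, fun z hz => ⟨(h3 hz).1, fun h => (h3 hz).2 (subset_closure h)⟩⟩)
  obtain ⟨z, hz⟩ := IsCompact.nonempty_iInter_of_sequence_nonempty_isCompact_isClosed
    (fun n => closure (s n).2.1) (fun n z hz => subset_closure ((h1 n).2 hz).1)
    (fun n => ((s n).2.2.2.2.mono inter_subset_left).closure) isClosed_closure.isCompact
    fun _ => isClosed_closure
  obtain ⟨x, rfl⟩ := hb.2 z
  obtain ⟨n, hn⟩ := eventually_atTop.1 (h2 x)
  have h3 : ∀ m ≥ n, x ∉ B (s m).1 := fun m hm h =>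
    ((h1 m).2 (mem_iInter.1 hz (m + 1))).2 ⟨x, ⟨hn m hm, h⟩, rfl⟩
  have h4 := h3 n le_rfl
  have h5 := h3 (n + 1) n.le_succ
  rw [(h1 n).1] at h5
  cases h : (s n).1 <;> simp_all [B]

lemma bump {C O : Set K} (h1 : IsClosed C) (h2 : IsPreconnected C) (h3 : C.Nontrivial)
    (hO : IsOpen O) (h4 : (O ∩ C).Nonempty) :
    ∃ D ⊆ O ∩ C, IsClosed D ∧ IsPreconnected D ∧ D.Nontrivial := by
  obtain ⟨q, hq, hq'⟩ := h4
  obtain ⟨r, hr, hr'⟩ := h3.exists_ne q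
  obtain ⟨N, n1, n2, n3⟩ := (isCompact_singleton (x := q)).exists_isOpen_closure_subset
    ((hO.inter isOpen_compl_singleton).mem_nhdsSet.2 (singleton_subset_iff.2 ⟨hq, hr'.symm⟩))
  have hZ := isClosed_closure (s := N).inter h1
  by_contra hc
  have : TotallyDisconnectedSpace (closure N ∩ C : Set K) :=
    totallyDisconnectedSpace_subtype_iff.2 fun t ht ht' => not_nontrivial_iff.1 fun h => hc
      ⟨closure t, fun z hz => ⟨(n3 (closure_minimal ht hZ hz).1).1, (closure_minimal ht hZ hz).2⟩,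
        isClosed_closure, ht'.closure, h.mono subset_closure⟩
  have := isCompact_iff_compactSpace.1 hZ.isCompact
  obtain ⟨D, d1, d2, d3⟩ := compact_exists_isClopen_in_isOpen
    (x := (⟨q, subset_closure (n2 rfl), hq'⟩ : (closure N ∩ C : Set K)))
    (n1.preimage continuous_subtype_val) (n2 rfl)
  obtain ⟨u, hu, rfl⟩ := isOpen_induced_iff.1 d1.2
  obtain ⟨_, -, ⟨z, hz, rfl⟩, hz'⟩ := isPreconnected_closed_iff.1 h2 _ _
    (hZ.isClosedMap_subtype_val _ d1.1) (hu.inter n1).isClosed_compl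
    (fun z hz => (em _).imp_left fun h => ⟨⟨z, subset_closure h.2, hz⟩, h.1, rfl⟩)
    ⟨q, hq', _, d2, rfl⟩ ⟨r, hr, fun h => (n3 (subset_closure h.2)).2 rfl⟩
  exact hz' ⟨hz, d3 hz⟩

theorem main (hH : Hur X) (hf : Continuous f) (hb : Bijective f)
    (hz : ∀ (p : X) (O : Set X), IsOpen O → p ∈ O → ∃ U, IsClopen U ∧ p ∈ U ∧ U ⊆ O) :
    TotallyDisconnectedSpace K := by
  refine ⟨fun t _ ht => not_nontrivial_iff.1 fun ht' => ?_⟩
  have : ∀ C : {C : Set K // IsClosed C ∧ IsPreconnected C ∧ C.Nontrivial}, ∃ (B : Set X) (y : X),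
      IsClosed B ∧ y ∉ B ∧ f y ∈ closure (⋃₀ {O | IsOpen O ∧ O ∩ C.1 ⊆ f '' B} ∩ C.1) := by
    rintro ⟨C, h1, h2, p, hp, q, hq, hpq⟩
    obtain ⟨a, rfl⟩ := hb.2 p
    obtain ⟨b, rfl⟩ := hb.2 q
    obtain ⟨A, hA, ha, hb'⟩ := hz a _ (isOpen_compl_singleton.preimage hf) hpq
    have hb'' : b ∉ A := fun h => hb' h rfl
    by_contra hc
    push Not at hc
    have c1 := fun y => hc A y hA.1
    have c2 := fun y (h : y ∈ A) => hc Aᶜ y hA.compl.1 (not_not.2 h)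
    have : C ⊆ closure (⋃₀ {O | IsOpen O ∧ O ∩ C ⊆ f '' A} ∩ C) ∪
        closure (⋃₀ {O | IsOpen O ∧ O ∩ C ⊆ f '' Aᶜ} ∩ C) := fun z hz => by
      rw [← closure_union]
      refine mem_closure_iff.2 fun O hO hO' => ?_
      obtain ⟨O', h3, h4, ⟨w, h5⟩, h6⟩ := resolv hH hf hb hA hO ⟨z, hO', hz⟩
      exact ⟨w, h3 h5.1, h6.imp (fun h => ⟨⟨O', ⟨h4, h⟩, h5.1⟩, h5.2⟩)
        fun h => ⟨⟨O', ⟨h4, h⟩, h5.1⟩, h5.2⟩⟩
    obtain ⟨z, -, h3, h4⟩ := isPreconnected_closed_iff.1 h2 _ _ isClosed_closure isClosed_closure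
      this ⟨_, hp, (this hp).resolve_right (c2 a ha)⟩ ⟨_, hq, (this hq).resolve_left (c1 b hb'')⟩
    obtain ⟨y, rfl⟩ := hb.2 z
    exact (em (y ∈ A)).elim (fun h => c2 y h h4) fun h => c1 y h h3
  choose B y h1 h2 h3 using this
  obtain ⟨s, W, h4, h5⟩ := game hH ⟨closure t, isClosed_closure, ht.closure,
    ht'.mono subset_closure⟩ _ (fun s => cov hf hb.1 (h1 s) (h2 s))
    (fun s W s' => s'.1 ⊆ s.1 ∩ (f '' W)ᶜ) (by
      rintro s W ⟨-, hW⟩
      obtain ⟨z, h6, ⟨O, ⟨h7, h8⟩, h9⟩, h10⟩ :=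
        mem_closure_iff.1 (h3 s) _ isClosed_closure.isOpen_compl hW
      obtain ⟨D, d1, d2⟩ := bump s.2.1 s.2.2.1 s.2.2.2 (h7.inter isClosed_closure.isOpen_compl)
        ⟨z, ⟨h9, h6⟩, h10⟩
      refine ⟨⟨D, d2⟩, fun w hw => ⟨(d1 hw).2, ?_⟩⟩
      rintro ⟨x, hx, rfl⟩
      obtain ⟨x', h11, h12⟩ := h8 ⟨(d1 hw).1.1, (d1 hw).2⟩
      exact (d1 hw).1.2 (subset_closure ⟨x, ⟨hx, hb.1 h12 ▸ h11⟩, rfl⟩))
  obtain ⟨z, hz⟩ := IsCompact.nonempty_iInter_of_sequence_nonempty_isCompact_isClosed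
    (fun n => (s n).1) (fun n z hz => (h4 n hz).1) (fun n => (s n).2.2.2.nonempty)
    (s 0).2.1.isCompact fun n => (s n).2.1
  obtain ⟨x, rfl⟩ := hb.2 z
  obtain ⟨n, hn⟩ := (h5 x).exists
  exact (h4 n (mem_iInter.1 hz (n + 1))).2 ⟨x, hn, rfl⟩

end Pool.Agent.H.MP_8652de_gt
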